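import Pool.Agent.H23.DF.TargetsW

/-! `VA`: the coefficients of the `L`-function vanish. -/

set_option autoImplicit false

open Polynomial

namespace Pool.Agent.H95.DF.VA

open Pool.Agent.H23.DF
open Pool.Agent.H23.BG (am)

section

variable {F : Type} [Field F] [Fintype F]

theorem va_finite (n : ℕ) : {g : F[X] | g.Monic ∧ g.natDegree = n}.Finite := by
  have h1 : Finite (degreeLT F (n + 1)) :=
    Finite.of_equiv _ (degreeLTEquiv F (n + 1)).symm.toEquiv
  have h2 : ((degreeLT F (n + 1) : Submodule F F[X]) : Set F[X]).Finite := Set.toFinite _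
  refine h2.subset ?_
  rintro g ⟨hg1, hg2⟩
  change g ∈ degreeLT F (n + 1)
  rw [mem_degreeLT, degree_eq_natDegree hg1.ne_zero, hg2]
  exact_mod_cast Nat.lt_succ_self n

omit [Fintype F] in
theorem va_add {n : ℕ} {g w : F[X]} (hg : g.Monic ∧ g.natDegree = n)
    (hw : w.natDegree < n) (s : F) :
    (g + C s * w).Monic ∧ (g + C s * w).natDegree = n := by
  have h1 : (C s * w).natDegree < g.natDegree := by
    rw [hg.2]
    exact (natDegree_C_mul_le s w).trans_lt hw
  constructor
  · exact hg.1.add_of_left (degree_lt_degree h1)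
  · rw [natDegree_add_eq_left_of_natDegree_lt h1, hg.2]

/-- translation by the multiples of `w` -/
theorem va_trans (Xf : F[X] → ℂ) (n : ℕ) (w : F[X]) (hw : w.natDegree < n)
    (h : ∀ g : F[X], g.Monic → g.natDegree = n → ∑ s : F, Xf (g + C s * w) = 0) :
    am F Xf n = 0 := by
  classical
  have hfin := va_finite (F := F) n
  have e0 : am F Xf n = ∑ g ∈ hfin.toFinset, Xf g := by
    unfold am
    exact finsum_mem_eq_finite_toFinset_sum _ hfin
  have mem : ∀ g : F[X], g ∈ hfin.toFinset ↔ (g.Monic ∧ g.natDegree = n) := fun g => by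
    rw [Set.Finite.mem_toFinset]
    rfl
  have e1 : ∀ s : F, ∑ g ∈ hfin.toFinset, Xf (g + C s * w) = am F Xf n := by
    intro s
    rw [e0]
    refine Finset.sum_nbij' (fun g => g + C s * w) (fun g => g + C (-s) * w) ?_ ?_ ?_ ?_ ?_
    · intro g hg
      exact (mem _).2 (va_add ((mem g).1 hg) hw s)
    · intro g hg
      exact (mem _).2 (va_add ((mem g).1 hg) hw (-s))
    · intro g _
      simp only [map_neg]
      ring
    · intro g _
      simp only [map_neg]
      ring
    · intro g _
      rfl
  have e2 : (Fintype.card F : ℂ) * am F Xf n = 0 := by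
    have h1 : ∑ s : F, ∑ g ∈ hfin.toFinset, Xf (g + C s * w) = (Fintype.card F : ℂ) * am F Xf n := by
      rw [Finset.sum_congr rfl fun s _ => e1 s, Finset.sum_const, nsmul_eq_mul]
      rfl
    rw [← h1, Finset.sum_comm]
    refine Finset.sum_eq_zero fun g hg => ?_
    exact h g ((mem g).1 hg).1 ((mem g).1 hg).2
  rcases mul_eq_zero.1 e2 with h1 | h1
  · exact absurd h1 (by exact_mod_cast Fintype.card_ne_zero)
  · exact h1

theorem va_sum (χ : MulChar F ℂ) (hχ : χ ≠ 1) (u : F) : ∑ s : F, χ (u + s) = 0 := by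
  rw [← MulChar.sum_eq_zero_of_ne_one hχ]
  exact Fintype.sum_equiv (Equiv.addLeft u) _ _ fun s => rfl

theorem va_sum' (χ : MulChar F ℂ) (hχ : χ ≠ 1) (u : F) :
    ∑ s : F, (starRingEnd ℂ) (χ (u + s)) = 0 := by
  rw [← map_sum, va_sum χ hχ u, map_zero]

omit [Fintype F] in
theorem va_w (a b c d : F) (hb : a ≠ b) (hc : a ≠ c) (hd : a ≠ d) :
    ∃ w : F[X], w.natDegree ≤ 3 ∧ w.eval a = 1 ∧ w.eval b = 0 ∧ w.eval c = 0 ∧
      w.eval d = 0 := by
  refine ⟨C ((a - b) * (a - c) * (a - d))⁻¹ * ((X - C b) * (X - C c) * (X - C d)), ?_, ?_, ?_,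
    ?_, ?_⟩
  · refine (natDegree_C_mul_le _ _).trans ?_
    refine natDegree_mul_le.trans ?_
    rw [natDegree_X_sub_C]
    have h := natDegree_mul_le (p := X - C b) (q := X - C c)
    rw [natDegree_X_sub_C, natDegree_X_sub_C] at h
    omega
  · have h1 : a - b ≠ 0 := sub_ne_zero.2 hb
    have h2 : a - c ≠ 0 := sub_ne_zero.2 hc
    have h3 : a - d ≠ 0 := sub_ne_zero.2 hd
    simp only [eval_mul, eval_C, eval_sub, eval_X]
    exact inv_mul_cancel₀ (mul_ne_zero (mul_ne_zero h1 h2) h3)
  · simp
  · simp
  · simp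

end

theorem pf_VA : V_VA := by
  intro F _ _ χ ψ π x hχ h2 hπ hx
  constructor
  · unfold am
    have e : {g : F[X] | g.Monic ∧ g.natDegree = 0} = {1} := by
      ext g
      simp only [Set.mem_ofPred_eq, Set.mem_singleton_iff]
      constructor
      · rintro ⟨hg1, hg2⟩
        exact hg1.natDegree_eq_zero.1 hg2
      · rintro rfl
        exact ⟨monic_one, natDegree_one⟩
    rw [e, finsum_mem_singleton]
    unfold m4
    simp
  · intro n hn
    have h2π : 2 * π ≠ 0 := mul_ne_zero h2 hπ
    have h4π : 2 * (2 * π) ≠ 0 := mul_ne_zero h2 h2π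
    have hab : -(x + π) ≠ -(x - π) := by
      intro h
      apply h2π
      linear_combination -h
    by_cases hxd : x = -(2 * π)
    · have hbc : -(x - π) ≠ -π := by
        intro h
        apply h4π
        rw [hxd] at h
        linear_combination h
      have hbd : -(x - π) ≠ π := by
        intro h
        apply h2π
        rw [hxd] at h
        linear_combination h
      obtain ⟨w, w0, w1, w2, w3, w4⟩ := va_w (-(x - π)) (-(x + π)) (-π) π hab.symm hbc hbd
      have hw : w.natDegree < n := by omega
      refine va_trans _ n w hw fun g hg1 hg2 => ?_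
      have e : ∀ s : F, m4 χ ψ π x (g + C s * w) =
          (χ (g.eval (-(x + π))) * ((starRingEnd ℂ) (ψ (g.eval (-π))) * ψ (g.eval π))) *
            (starRingEnd ℂ) (χ (g.eval (-(x - π)) + s)) := by
        intro s
        unfold m4
        simp only [eval_add, eval_mul, eval_C, w1, w2, w3, w4, mul_zero, add_zero, mul_one]
        ring
      rw [Finset.sum_congr rfl fun s _ => e s, ← Finset.mul_sum, va_sum' χ hχ, mul_zero]
    · have hac : -(x + π) ≠ -π := by
        intro h
        apply hx
        linear_combination -h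
      have had : -(x + π) ≠ π := by
        intro h
        apply hxd
        linear_combination -h
      obtain ⟨w, w0, w1, w2, w3, w4⟩ := va_w (-(x + π)) (-(x - π)) (-π) π hab hac had
      have hw : w.natDegree < n := by omega
      refine va_trans _ n w hw fun g hg1 hg2 => ?_
      have e : ∀ s : F, m4 χ ψ π x (g + C s * w) =
          ((starRingEnd ℂ) (χ (g.eval (-(x - π)))) *
            ((starRingEnd ℂ) (ψ (g.eval (-π))) * ψ (g.eval π))) *
            χ (g.eval (-(x + π)) + s) := by
        intro s
        unfold m4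
        simp only [eval_add, eval_mul, eval_C, w1, w2, w3, w4, mul_zero, add_zero, mul_one]
        ring
      rw [Finset.sum_congr rfl fun s _ => e s, ← Finset.mul_sum, va_sum χ hχ, mul_zero]

end Pool.Agent.H95.DF.VA
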