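import Pool.Agent.H23.DF.TargetsW

/-! `H9`: elements of norm one and characters. -/

set_option autoImplicit false

namespace Pool.Agent.H95.DF.H9

open Pool.Agent.H23.DF

section

variable {F : Type} [Field F] [Fintype F]

open scoped Classical in
/-- the sum of all characters -/
lemma sum_all [Fintype (MulChar F ℂ)] (v : F) :
    ∑ ψ : MulChar F ℂ, ψ v = if v = 1 then ((Fintype.card F - 1 : ℕ) : ℂ) else 0 := by
  split_ifs with hv
  · subst hv
    have h1 : Fintype.card (MulChar F ℂ) = Fintype.card F - 1 := by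
      rw [← Nat.card_eq_fintype_card, MulChar.card_eq_card_units_of_hasEnoughRootsOfUnity,
        Nat.card_eq_fintype_card, Fintype.card_units]
    simp [h1]
  · obtain ⟨χ, hχ⟩ := MulChar.exists_apply_ne_one_of_hasEnoughRootsOfUnity F ℂ hv
    refine eq_zero_of_mul_eq_self_left hχ ?_
    simp only [Finset.mul_sum, ← MulChar.mul_apply]
    exact Fintype.sum_bijective _ (Group.mulLeft_bijective χ) _ _ fun χ' ↦ rfl

variable {E : Type} [Field E] [Fintype E] [Algebra F E]

omit [Algebra F E] in
lemma card_ker_le : Nat.card (powMonoidHom (Fintype.card F - 1) : Eˣ →* Eˣ).ker ≤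
    Fintype.card F - 1 := by
  classical
  have h := IsCyclic.card_pow_eq_one_le (α := Eˣ) (n := Fintype.card F - 1)
    (Nat.sub_pos_of_lt Fintype.one_lt_card)
  refine le_trans (le_of_eq ?_) h
  rw [← Set.ncard_coe_finset, ← SetLike.coe_sort_coe, Nat.card_coe_set_eq]
  congr 1
  ext x
  simp

/-- Hilbert 90 -/
lemma h90 (c : Eˣ) (hc : Algebra.norm F (c : E) = 1) : ∃ z : Eˣ, z ^ (Fintype.card F - 1) = c := by
  set φ : Eˣ →* Eˣ := powMonoidHom (Fintype.card F - 1) with hφ
  set N : Eˣ →* Fˣ := Units.map (Algebra.norm F (S := E)) with hN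
  have hle : φ.range ≤ N.ker := by
    rintro x ⟨y, rfl⟩
    classical
    rw [MonoidHom.mem_ker, hφ, powMonoidHom_apply, map_pow, ← Fintype.card_units]
    exact pow_card_eq_one
  have h1 : Nat.card N.ker * N.ker.index = Nat.card Eˣ := Subgroup.card_mul_index _
  have h2 : Nat.card φ.ker * φ.ker.index = Nat.card Eˣ := Subgroup.card_mul_index _
  have h3 : N.ker.index = Fintype.card F - 1 := by
    rw [Subgroup.index_ker, MonoidHom.range_eq_top.2 (FiniteField.unitsMap_norm_surjective F E),
      Subgroup.card_top, Nat.card_units, Nat.card_eq_fintype_card]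
  have h4 : φ.ker.index = Nat.card φ.range := Subgroup.index_ker _
  have h5 : Nat.card φ.ker ≤ Fintype.card F - 1 := card_ker_le
  have hq : 0 < Fintype.card F - 1 := Nat.sub_pos_of_lt Fintype.one_lt_card
  have h6 : Nat.card N.ker ≤ Nat.card φ.range := by
    rw [h3] at h1
    rw [h4] at h2
    have h7 : Nat.card N.ker * (Fintype.card F - 1) ≤
        Nat.card φ.range * (Fintype.card F - 1) := by
      rw [h1, ← h2, mul_comm (Nat.card φ.ker)]
      exact Nat.mul_le_mul_left _ h5
    exact Nat.le_of_mul_le_mul_right h7 hq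
  have h7 : φ.range = N.ker := Subgroup.eq_of_le_of_card_ge hle h6
  have h8 : c ∈ N.ker := by
    rw [MonoidHom.mem_ker]
    exact Units.ext hc
  rw [← h7] at h8
  obtain ⟨z, hz⟩ := h8
  exact ⟨z, hz⟩

open scoped Classical in
/-- the number of the solutions -/
lemma card_sol {a b : E} (ha : a ≠ 0) (hb : b ≠ 0) :
    Nat.card {z : E // z ≠ 0 ∧ z ^ (Fintype.card F - 1) * b = a} =
      if Algebra.norm F b = Algebra.norm F a then Fintype.card F - 1 else 0 := by
  have hq : 0 < Fintype.card F - 1 := Nat.sub_pos_of_lt Fintype.one_lt_card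
  split_ifs with h
  · have hc : Algebra.norm F ((Units.mk0 (a / b) (div_ne_zero ha hb) : Eˣ) : E) = 1 := by
      have h9 : Algebra.norm F (a / b) * Algebra.norm F b = 1 * Algebra.norm F b := by
        rw [← map_mul, div_mul_cancel₀ _ hb, one_mul, h]
      rw [Units.val_mk0]
      exact mul_right_cancel₀ (Algebra.norm_ne_zero_iff.2 hb) h9
    obtain ⟨z₀, hz₀⟩ := h90 _ hc
    have hz1 : (z₀ : E) ^ (Fintype.card F - 1) * b = a := by
      rw [← Units.val_pow_eq_pow_val, hz₀, Units.val_mk0, div_mul_cancel₀ _ hb]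
    have e : {z : E // z ≠ 0 ∧ z ^ (Fintype.card F - 1) * b = a} ≃
        (powMonoidHom (Fintype.card F - 1) : Eˣ →* Eˣ).ker :=
      { toFun := fun z => ⟨Units.mk0 z.1 z.2.1 * z₀⁻¹, by
          rw [MonoidHom.mem_ker, powMonoidHom_apply, mul_pow, inv_pow, hz₀, mul_inv_eq_one]
          refine Units.ext ?_
          rw [Units.val_pow_eq_pow_val, Units.val_mk0, Units.val_mk0, eq_div_iff hb]
          exact z.2.2⟩
        invFun := fun w => ⟨(w.1 * z₀ : Eˣ), Units.ne_zero _, by
          have hw : (w.1 : Eˣ) ^ (Fintype.card F - 1) = 1 := w.2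
          rw [← Units.val_pow_eq_pow_val, mul_pow, hw, one_mul, Units.val_pow_eq_pow_val, hz1]⟩
        left_inv := fun z => by
          apply Subtype.ext
          simp
        right_inv := fun w => by
          apply Subtype.ext
          apply Units.ext
          simp }
    rw [Nat.card_congr e]
    refine le_antisymm card_ker_le ?_
    have h1 : Nat.card Fˣ = Fintype.card F - 1 := by
      rw [Nat.card_units, Nat.card_eq_fintype_card]
    refine h1.symm.le.trans (Nat.card_le_card_of_injective
      (fun t : Fˣ => (⟨Units.map (algebraMap F E : F →* E) t, ?_⟩ :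
        (powMonoidHom (Fintype.card F - 1) : Eˣ →* Eˣ).ker)) ?_)
    · rw [MonoidHom.mem_ker, powMonoidHom_apply, ← map_pow, ← Fintype.card_units, pow_card_eq_one,
        map_one]
    · intro s t hst
      have h2 := congrArg (fun w => ((w.1 : Eˣ) : E)) hst
      simp only [Units.coe_map] at h2
      exact Units.ext ((algebraMap F E).injective h2)
  · rw [Nat.card_eq_zero]
    left
    refine ⟨fun z => h ?_⟩
    obtain ⟨z, hz0, hz⟩ := z
    have h2 := congrArg (Algebra.norm F) hz
    rw [map_mul, map_pow, FiniteField.pow_card_sub_one_eq_one _ (Algebra.norm_ne_zero_iff.2 hz0),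
      one_mul] at h2
    exact h2

end

theorem pf_H9 : V_H9 := by
  intro F _ _ _ E _ _ _ a b hb
  by_cases ha : a = 0
  · subst ha
    have h1 : Nat.card {z : E // z ≠ 0 ∧ z ^ (Fintype.card F - 1) * b = 0} = 0 := by
      rw [Nat.card_eq_zero]
      left
      refine ⟨fun z => ?_⟩
      obtain ⟨z, hz0, hz⟩ := z
      exact mul_ne_zero (pow_ne_zero _ hz0) hb hz
    rw [h1]
    simp [MulChar.map_zero]
  · have hNa : Algebra.norm F a ≠ 0 := Algebra.norm_ne_zero_iff.2 ha
    have h1 : ∀ ψ : MulChar F ℂ, (starRingEnd ℂ) (ψ (Algebra.norm F a)) * ψ (Algebra.norm F b) =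
        ψ ((Algebra.norm F a)⁻¹ * Algebra.norm F b) := by
      intro ψ
      rw [starRingEnd_apply, MulChar.star_apply', MulChar.inv_apply', ← map_mul]
    rw [Finset.sum_congr rfl fun ψ _ => h1 ψ, sum_all, card_sol ha hb]
    have h2 : ((Algebra.norm F a)⁻¹ * Algebra.norm F b = 1) ↔
        Algebra.norm F b = Algebra.norm F a := by
      rw [inv_mul_eq_one₀ hNa, eq_comm]
    by_cases h3 : Algebra.norm F b = Algebra.norm F a
    · rw [if_pos (h2.2 h3), if_pos h3]
    · rw [if_neg (fun h => h3 (h2.1 h)), if_neg h3, Nat.cast_zero]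

end Pool.Agent.H95.DF.H9
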